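import Mathlib

/-! # Integer checks for centrally symmetric simplicial polytopes: linear independence along cliques -/

set_option autoImplicit false

namespace Pool.Agent.CSP

/-- Scalar product of two integer lists. -/
def dot : List ℤ → List ℤ → ℤ
  | a :: as, b :: bs => a * b + dot as bs
  | _, _ => 0

/-- `a * h - b * g`. -/
def comb (a b : ℤ) : List ℤ → List ℤ → List ℤ
  | h :: hs, g :: gs => (a * h - b * g) :: comb a b hs gs
  | _, _ => []

/-- Given functionals vanishing on the chosen vectors, choose one that does not vanish at `w`
and make the others vanish at `w`. -/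
def step : List (List ℤ) → List ℤ → Option (List (List ℤ))
  | [], _ => none
  | g :: G, w =>
    if dot g w = 0 then (step G w).map (g :: ·)
    else some (G.map fun h => if dot h w = 0 then h else comb (dot g w) (dot h w) h g)

/-- The check: along every clique which contains no set of `NF` the vectors are linearly independent. -/
def chk (NF : List ℕ) : List (ℕ × ℕ × List ℤ) → ℕ → ℕ → List (List ℤ) → Bool
  | [], _, _, _ => true
  | e :: es, cand, cur, G => chk NF es cand cur G && (if cand.testBit e.1 then
      (match step G e.2.2 with
        | none => NF.any fun T => decide (T &&& (cur ||| 2 ^ e.1) = T)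
        | some G' => chk NF es (cand &&& e.2.1) (cur ||| 2 ^ e.1) G') else true)

/-- The real vector of an integer list. -/
noncomputable def toVec (d : ℕ) (w : List ℤ) : Fin d → ℝ := fun i => ((w.getD i 0 : ℤ) : ℝ)

/-- The linear functional of an integer list. -/
noncomputable def lin (d : ℕ) (h : List ℤ) : (Fin d → ℝ) →ₗ[ℝ] ℝ where
  toFun x := ∑ i : Fin d, ((h.getD i 0 : ℤ) : ℝ) * x i
  map_add' x y := by simp [mul_add, Finset.sum_add_distrib]
  map_smul' c x := by
    simp only [Pi.smul_apply, smul_eq_mul, RingHom.id_apply, Finset.mul_sum]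
    refine Finset.sum_congr rfl fun i _ => ?_
    ring

theorem lin_toVec {d : ℕ} : ∀ {h w : List ℤ}, h.length = d → w.length = d →
    lin d h (toVec d w) = ((dot h w : ℤ) : ℝ) := by
  induction d with
  | zero =>
    intro h w h1 h2
    rw [List.length_eq_zero_iff] at h1 h2
    subst h1 h2
    simp [lin, dot]
  | succ d ih =>
    intro h w h1 h2
    match h, w, h1, h2 with
    | a :: as, b :: bs, h1, h2 =>
      have e1 : as.length = d := by simpa using h1
      have e2 : bs.length = d := by simpa using h2
      have e3 := ih e1 e2
      simp only [lin, toVec, LinearMap.coe_mk, AddHom.coe_mk] at e3 ⊢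
      rw [Fin.sum_univ_succ, dot]
      simp only [Fin.val_zero, List.getD_cons_zero, Fin.val_succ, List.getD_cons_succ]
      rw [e3]
      push_cast
      ring

theorem comb_length {d : ℕ} (a b : ℤ) : ∀ {h g : List ℤ}, h.length = d → g.length = d →
    (comb a b h g).length = d := by
  induction d with
  | zero =>
    intro h g h1 h2
    rw [List.length_eq_zero_iff] at h1 h2
    subst h1 h2
    rfl
  | succ d ih =>
    intro h g h1 h2
    match h, g, h1, h2 with
    | x :: xs, y :: ys, h1, h2 =>
      simp only [comb, List.length_cons]
      rw [ih (by simpa using h1) (by simpa using h2)]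

theorem comb_getD {d : ℕ} (a b : ℤ) : ∀ {h g : List ℤ}, h.length = d → g.length = d →
    ∀ i : ℕ, (comb a b h g).getD i 0 = a * h.getD i 0 - b * g.getD i 0 := by
  induction d with
  | zero =>
    intro h g h1 h2 i
    rw [List.length_eq_zero_iff] at h1 h2
    subst h1 h2
    simp [comb]
  | succ d ih =>
    intro h g h1 h2 i
    match h, g, h1, h2 with
    | x :: xs, y :: ys, h1, h2 =>
      cases i with
      | zero => simp [comb]
      | succ i =>
        simp only [comb, List.getD_cons_succ]
        exact ih (by simpa using h1) (by simpa using h2) i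

theorem lin_comb {d : ℕ} (a b : ℤ) {h g : List ℤ} (h1 : h.length = d) (h2 : g.length = d)
    (x : Fin d → ℝ) : lin d (comb a b h g) x = a * lin d h x - b * lin d g x := by
  simp only [lin, LinearMap.coe_mk, AddHom.coe_mk, Finset.mul_sum, ← Finset.sum_sub_distrib]
  refine Finset.sum_congr rfl fun i _ => ?_
  rw [comb_getD a b h1 h2]
  push_cast
  ring

theorem step_spec {d : ℕ} {w : List ℤ} (hw : w.length = d) : ∀ {G G' : List (List ℤ)},
    step G w = some G' → (∀ g ∈ G, g.length = d) →
    (∃ g ∈ G, dot g w ≠ 0) ∧ (∀ h ∈ G', h.length = d) ∧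
      (∀ h ∈ G', lin d h (toVec d w) = 0) ∧
      ∀ x : Fin d → ℝ, (∀ g ∈ G, lin d g x = 0) → ∀ h ∈ G', lin d h x = 0 := by
  intro G
  induction G with
  | nil =>
    intro G' h
    simp [step] at h
  | cons g G ih =>
    intro G' h hl
    have hg := hl g (by simp)
    unfold step at h
    by_cases h0 : dot g w = 0
    · rw [if_pos h0] at h
      obtain ⟨G1, h1, h2⟩ := Option.map_eq_some_iff.1 h
      obtain ⟨⟨g', i1, i2⟩, i3, i4, i5⟩ := ih h1 fun g hg => hl g (by simp [hg])
      subst h2
      refine ⟨⟨g', by simp [i1], i2⟩, ?_, ?_, ?_⟩
      · intro h hh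
        rcases List.mem_cons.1 hh with rfl | hh
        · exact hg
        · exact i3 h hh
      · intro h hh
        rcases List.mem_cons.1 hh with rfl | hh
        · rw [lin_toVec hg hw, h0]
          simp
        · exact i4 h hh
      · intro x hx h hh
        rcases List.mem_cons.1 hh with rfl | hh
        · exact hx _ (by simp)
        · exact i5 x (fun g hg => hx g (by simp [hg])) h hh
    · rw [if_neg h0] at h
      have h2 := Option.some.inj h
      subst h2
      refine ⟨⟨g, by simp, h0⟩, ?_, ?_, ?_⟩
      · intro h hh
        obtain ⟨h', h3, h4⟩ := List.mem_map.1 hh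
        subst h4
        have h5 := hl h' (by simp [h3])
        split_ifs
        · exact h5
        · exact comb_length _ _ h5 hg
      · intro h hh
        obtain ⟨h', h3, h4⟩ := List.mem_map.1 hh
        subst h4
        have h5 := hl h' (by simp [h3])
        split_ifs with h6
        · rw [lin_toVec h5 hw, h6]
          simp
        · rw [lin_comb _ _ h5 hg, lin_toVec h5 hw, lin_toVec hg hw]
          ring
      · intro x hx h hh
        obtain ⟨h', h3, h4⟩ := List.mem_map.1 hh
        subst h4
        have h5 := hl h' (by simp [h3])
        split_ifs with h6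
        · exact hx h' (by simp [h3])
        · rw [lin_comb _ _ h5 hg, hx h' (by simp [h3]), hx g (by simp)]
          ring

theorem chk_spec {d : ℕ} (f : ℕ → Fin d → ℝ) (NF : List ℕ) : ∀ (es : List (ℕ × ℕ × List ℤ))
    (cand cur : ℕ) (G : List (List ℤ)), chk NF es cand cur G = true →
    (∀ e ∈ es, e.2.2.length = d) → (∀ g ∈ G, g.length = d) →
    (∀ e ∈ es, f e.1 = toVec d e.2.2) → ∀ C : Set ℕ, LinearIndepOn ℝ f C →
    (∀ t, cur.testBit t = true → t ∈ C) →
    (∀ g ∈ G, ∀ c ∈ C, lin d g (f c) = 0) → ∀ S : Set ℕ, (∀ s ∈ S, ∃ e ∈ es, e.1 = s) →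
    (∀ s ∈ S, cand.testBit s = true) →
    (∀ e ∈ es, e.1 ∈ S → ∀ s ∈ S, s ≠ e.1 → e.2.1.testBit s = true) →
    (∀ T ∈ NF, ∃ t, T.testBit t = true ∧ t ∉ C ∧ t ∉ S) →
    LinearIndepOn ℝ f (C ∪ S) := by
  intro es
  induction es with
  | nil =>
    intro cand cur G h _ _ _ C hC _ _ S hS _ _ _
    have : S = ∅ := by
      rw [Set.eq_empty_iff_forall_notMem]
      intro s hs
      obtain ⟨e, he, _⟩ := hS s hs
      simp at he
    rw [this, Set.union_empty]
    exact hC
  | cons e es ih =>
    intro cand cur G h hl hG hf C hC hcur hGC S hS hS2 hS3 hNF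
    unfold chk at h
    rw [Bool.and_eq_true] at h
    obtain ⟨h1, h2⟩ := h
    by_cases he : e.1 ∈ S
    · have h3 := hS2 _ he
      rw [if_pos h3] at h2
      have hwl := hl e (by simp)
      have hfe := hf e (by simp)
      have hcur' : ∀ t, (cur ||| 2 ^ e.1).testBit t = true → t ∈ insert e.1 C := by
        intro t ht
        rw [Nat.testBit_or, Bool.or_eq_true, Nat.testBit_two_pow] at ht
        rcases ht with ht | ht
        · exact Or.inr (hcur t ht)
        · exact Or.inl (of_decide_eq_true ht).symm
      rcases hs : step G e.2.2 with _ | G'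
      · rw [hs] at h2
        obtain ⟨T, hT, hT2⟩ := List.any_eq_true.1 h2
        obtain ⟨t, ht, htC, htS⟩ := hNF T hT
        have h4 : T &&& (cur ||| 2 ^ e.1) = T := by simpa using hT2
        rw [← h4, Nat.testBit_and, Bool.and_eq_true] at ht
        rcases Set.mem_insert_iff.1 (hcur' t ht.2) with h5 | h5
        · exact absurd (h5 ▸ he) htS
        · exact absurd h5 htC
      · rw [hs] at h2
        obtain ⟨⟨g, g1, g2⟩, i3, i4, i5⟩ := step_spec hwl hs hG
        have hsp : f e.1 ∉ Submodule.span ℝ (f '' C) := by
          intro hm
          have : lin d g (f e.1) = 0 := by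
            have : Submodule.span ℝ (f '' C) ≤ LinearMap.ker (lin d g) := by
              rw [Submodule.span_le]
              rintro _ ⟨c, hc, rfl⟩
              exact hGC g g1 c hc
            exact this hm
          rw [hfe, lin_toVec (hG g g1) hwl] at this
          exact g2 (by exact_mod_cast this)
        have key := ih (cand &&& e.2.1) (cur ||| 2 ^ e.1) G' h2 (fun e he => hl e (by simp [he])) i3
          (fun e he => hf e (by simp [he])) (insert e.1 C) (hC.insert hsp) hcur'
          (by
            intro g' hg' c hc
            rcases Set.mem_insert_iff.1 hc with rfl | hc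
            · rw [hfe]
              exact i4 g' hg'
            · exact i5 (f c) (fun g hg => hGC g hg c hc) g' hg')
          (S \ {e.1})
          (by
            rintro s ⟨hs1, hs2⟩
            obtain ⟨e', he', h4⟩ := hS s hs1
            rcases List.mem_cons.1 he' with rfl | he'
            · exact absurd h4.symm (by simpa using hs2)
            · exact ⟨e', he', h4⟩)
          (by
            rintro s ⟨hs1, hs2⟩
            rw [Nat.testBit_and, hS2 s hs1, hS3 e (by simp) he s hs1 (by simpa using hs2)]
            rfl)
          (by
            rintro e' he' ⟨h4, _⟩ s ⟨hs1, _⟩ hs3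
            exact hS3 e' (by simp [he']) h4 s hs1 hs3)
          (by
            intro T hT
            obtain ⟨t, ht, htC, htS⟩ := hNF T hT
            refine ⟨t, ht, ?_, fun h => htS h.1⟩
            intro h
            rcases Set.mem_insert_iff.1 h with h5 | h5
            · exact htS (h5 ▸ he)
            · exact htC h5)
        have hset : insert e.1 C ∪ (S \ {e.1}) = C ∪ S := by
          ext x
          simp only [Set.mem_union, Set.mem_insert_iff, Set.mem_sdiff, Set.mem_singleton_iff]
          constructor
          · rintro ((h | h) | ⟨h, _⟩)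
            · exact Or.inr (h ▸ he)
            · exact Or.inl h
            · exact Or.inr h
          · rintro (h | h)
            · exact Or.inl (Or.inr h)
            · by_cases h5 : x = e.1
              · exact Or.inl (Or.inl h5)
              · exact Or.inr ⟨h, h5⟩
        rwa [hset] at key
    · refine ih cand cur G h1 (fun e he => hl e (by simp [he])) hG
        (fun e he => hf e (by simp [he])) C hC hcur hGC S ?_ hS2 ?_ hNF
      · intro s hs
        obtain ⟨e', he', h4⟩ := hS s hs
        rcases List.mem_cons.1 he' with rfl | he'
        · exact absurd (h4 ▸ hs) he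
        · exact ⟨e', he', h4⟩
      · intro e' he' h4 s hs h5
        exact hS3 e' (by simp [he']) h4 s hs h5

end Pool.Agent.CSP
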