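import Pool.Agent.CSP.Fast

/-! # A table of vertices, certificates and functionals -/

set_option autoImplicit false
set_option maxRecDepth 100000

namespace Pool.Agent.CSP.D4

def L : List (ℕ × ℕ × List ℤ) := [
  (21, 698006, [-3, -3, -6, -6]),
  (20, 350569, [3, 3, 6, 6]),
  (19, 2267750, [-3, -6, -3, -6]),
  (18, 1140121, [3, 6, 3, 6]),
  (17, 2648486, [-3, -6, -6, -3]),
  (16, 1349209, [3, 6, 6, 3]),
  (15, 2697818, [-6, -3, -3, -6]),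
  (14, 1447333, [6, 3, 3, 6]),
  (13, 2525594, [-6, -3, -6, -3]),
  (12, 1656421, [6, 3, 6, 3]),
  (11, 1745258, [-6, -6, -3, -3]),
  (10, 2445973, [6, 6, 3, 3]),
  (9, 2724948, [-1, -1, -1, -5]),
  (8, 1468584, [1, 1, 1, 5]),
  (7, 2516244, [-1, -1, -5, -1]),
  (6, 1677864, [1, 1, 5, 1]),
  (5, 1726788, [-1, -5, -1, -1]),
  (4, 2467464, [1, 5, 1, 1]),
  (3, 1419600, [-5, -1, -1, -1]),
  (2, 2774688, [5, 1, 1, 1]),
  (1, 2795520, [-6, -6, -6, -6]),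
  (0, 1397760, [6, 6, 6, 6])]

def certs : List (ℕ × ℕ × ℕ × List (ℕ × ℕ)) := [
  (0, 2, 7, [(1, 2), (4, 10), (4, 12), (4, 14)]),
  (0, 3, 11, [(5, 3), (4, 16), (4, 18), (4, 20)]),
  (0, 4, 7, [(1, 4), (4, 10), (4, 16), (4, 18)]),
  (0, 5, 11, [(5, 5), (4, 12), (4, 14), (4, 20)]),
  (0, 6, 7, [(1, 6), (4, 12), (4, 16), (4, 20)]),
  (0, 7, 11, [(5, 7), (4, 10), (4, 14), (4, 18)]),
  (0, 8, 7, [(1, 8), (4, 14), (4, 18), (4, 20)]),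
  (0, 9, 11, [(5, 9), (4, 10), (4, 12), (4, 16)]),
  (0, 11, 3, [(1, 11), (2, 20)]),
  (0, 13, 3, [(1, 13), (2, 18)]),
  (0, 15, 3, [(1, 15), (2, 16)]),
  (0, 17, 3, [(2, 14), (1, 17)]),
  (0, 19, 3, [(2, 12), (1, 19)]),
  (0, 21, 3, [(2, 10), (1, 21)]),
  (2, 4, 9, [(10, 10), (2, 21)]),
  (2, 6, 9, [(10, 12), (2, 19)]),
  (2, 8, 9, [(10, 14), (2, 17)]),
  (2, 11, 24, [(3, 2), (15, 5), (4, 17), (4, 19)]),
  (2, 13, 24, [(3, 2), (15, 7), (4, 17), (4, 21)]),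
  (2, 15, 24, [(3, 2), (15, 9), (4, 19), (4, 21)]),
  (2, 16, 33, [(3, 9), (20, 10), (20, 12), (9, 16)]),
  (2, 18, 33, [(3, 7), (20, 10), (20, 14), (9, 18)]),
  (2, 20, 33, [(3, 5), (20, 12), (20, 14), (9, 20)]),
  (4, 6, 9, [(2, 15), (10, 16)]),
  (4, 8, 9, [(2, 13), (10, 18)]),
  (4, 11, 24, [(15, 3), (3, 4), (4, 13), (4, 15)]),
  (4, 12, 33, [(3, 9), (20, 10), (9, 12), (20, 16)]),
  (4, 14, 33, [(3, 7), (20, 10), (9, 14), (20, 18)]),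
  (4, 17, 24, [(3, 4), (15, 7), (4, 13), (4, 21)]),
  (4, 19, 24, [(3, 4), (15, 9), (4, 15), (4, 21)]),
  (4, 20, 33, [(3, 3), (20, 16), (20, 18), (9, 20)]),
  (6, 8, 9, [(2, 11), (10, 20)]),
  (6, 10, 33, [(3, 9), (9, 10), (20, 12), (20, 16)]),
  (6, 13, 24, [(15, 3), (3, 6), (4, 11), (4, 15)]),
  (6, 14, 33, [(3, 5), (20, 12), (9, 14), (20, 20)]),
  (6, 17, 24, [(15, 5), (3, 6), (4, 11), (4, 19)]),
  (6, 18, 33, [(3, 3), (20, 16), (9, 18), (20, 20)]),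
  (6, 21, 24, [(3, 6), (15, 9), (4, 15), (4, 19)]),
  (8, 10, 33, [(3, 7), (9, 10), (20, 14), (20, 18)]),
  (8, 12, 33, [(3, 5), (9, 12), (20, 14), (20, 20)]),
  (8, 15, 24, [(15, 3), (3, 8), (4, 11), (4, 13)]),
  (8, 16, 33, [(3, 3), (9, 16), (20, 18), (20, 20)]),
  (8, 19, 24, [(15, 5), (3, 8), (4, 11), (4, 17)]),
  (8, 21, 24, [(15, 7), (3, 8), (4, 13), (4, 17)]),
  (10, 13, 4, [(3, 4), (3, 7)]),
  (10, 15, 4, [(3, 4), (3, 9)]),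
  (10, 17, 4, [(3, 2), (3, 7)]),
  (10, 19, 4, [(3, 2), (3, 9)]),
  (10, 20, 2, [(3, 0)]),
  (12, 15, 4, [(3, 6), (3, 9)]),
  (12, 17, 4, [(3, 2), (3, 5)]),
  (12, 18, 2, [(3, 0)]),
  (12, 21, 4, [(3, 2), (3, 9)]),
  (14, 16, 2, [(3, 0)]),
  (14, 19, 4, [(3, 2), (3, 5)]),
  (14, 21, 4, [(3, 2), (3, 7)]),
  (16, 19, 4, [(3, 6), (3, 9)]),
  (16, 21, 4, [(3, 4), (3, 9)]),
  (18, 21, 4, [(3, 4), (3, 7)])]

def H : List (ℕ × List ℤ) := [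
  (0, [1, 1, 1, 1]),
  (1, [-1, -1, -1, -1]),
  (2, [3, -1, -1, -1]),
  (3, [-3, 1, 1, 1]),
  (4, [-1, 3, -1, -1]),
  (5, [1, -3, 1, 1]),
  (6, [-1, -1, 3, -1]),
  (7, [1, 1, -3, 1]),
  (8, [-1, -1, -1, 3]),
  (9, [1, 1, 1, -3]),
  (10, [2, 2, -1, -1]),
  (11, [-2, -2, 1, 1]),
  (12, [2, -1, 2, -1]),
  (13, [-2, 1, -2, 1]),
  (14, [2, -1, -1, 2]),
  (15, [-2, 1, 1, -2]),
  (16, [-1, 2, 2, -1]),
  (17, [1, -2, -2, 1]),
  (18, [-1, 2, -1, 2]),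
  (19, [1, -2, 1, -2]),
  (20, [-1, -1, 2, 2]),
  (21, [1, 1, -2, -2])]

def B : List (ℕ × List (ℕ × ℕ)) := [
  (12, [(3, 7), (3, 12), (1, 19)]),
  (12, [(3, 9), (1, 13), (3, 18)]),
  (36, [(9, 6), (1, 13), (1, 19)]),
  (36, [(9, 8), (1, 13), (1, 19)])]

def Q : List (List ℕ × ℕ × List (ℕ × ℕ)) := [
]

def NF : List ℕ := [
]

theorem checks : Checks 4 22 L certs H B Q NF where
  nf := by decide +kernel
  nfm := by decide +kernel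
  idx := by decide +kernel
  len := by decide +kernel
  anti := by decide +kernel
  sym := by decide +kernel
  cert := by decide +kernel
  pairs := pairs_of (N := 22) (by decide +kernel) (by decide +kernel)
  cyc := cyc_of (N := 22) (by decide +kernel) (by decide +kernel)
  clique := by decide +kernel
  vert := by decide +kernel
  basis := by decide +kernel
  pos := by norm_num

end Pool.Agent.CSP.D4
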