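import Pool.Agent.CSP.Fast

/-! # A table of vertices, certificates and functionals -/

set_option autoImplicit false
set_option maxRecDepth 100000

namespace Pool.Agent.CSP.D5

def L : List (ℕ × ℕ × List ℤ) := [
  (31, 715741846, [0, 0, -3, -3, -3]),
  (30, 357999977, [0, 0, 3, 3, 3]),
  (29, 2325125734, [0, -3, 0, -3, -3]),
  (28, 1164535193, [0, 3, 0, 3, 3]),
  (27, 2724620710, [0, -3, -3, 0, -3]),
  (26, 1369019993, [0, 3, 3, 0, 3]),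
  (25, 2824447654, [0, -3, -3, -3, 0]),
  (24, 1420187993, [0, 3, 3, 3, 0]),
  (23, 2771032666, [-3, 0, 0, -3, -3]),
  (22, 1511351717, [3, 0, 0, 3, 3]),
  (21, 2575985050, [-3, 0, -3, 0, -3]),
  (20, 1715836517, [3, 0, 3, 0, 3]),
  (19, 2527176346, [-3, 0, -3, -3, 0]),
  (18, 1767004517, [3, 0, 3, 3, 0]),
  (17, 1772398954, [-3, -3, 0, 0, -3]),
  (16, 2522371733, [3, 3, 0, 0, 3]),
  (15, 1721378410, [-3, -3, 0, -3, 0]),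
  (14, 2573539733, [3, 3, 0, 3, 0]),
  (13, 1516930474, [-3, -3, -3, 0, 0]),
  (12, 2778024533, [3, 3, 3, 0, 0]),
  (11, 2846249302, [0, 0, 0, 0, -4]),
  (10, 1448714921, [0, 0, 0, 0, 4]),
  (9, 2795082838, [0, 0, 0, -4, 0]),
  (8, 1499883689, [0, 0, 0, 4, 0]),
  (7, 2590598422, [0, 0, -4, 0, 0]),
  (6, 1704368681, [0, 0, 4, 0, 0]),
  (5, 1784063302, [0, -4, 0, 0, 0]),
  (4, 2510903945, [0, 4, 0, 0, 0]),
  (3, 1437246802, [-4, 0, 0, 0, 0]),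
  (2, 2857720481, [4, 0, 0, 0, 0]),
  (1, 2863311528, [-4, -4, -4, -4, -4]),
  (0, 1431655764, [4, 4, 4, 4, 4])]

def certs : List (ℕ × ℕ × ℕ × List (ℕ × ℕ)) := [
  (0, 3, 9, [(4, 24), (4, 26), (4, 28), (4, 30)]),
  (0, 5, 9, [(4, 18), (4, 20), (4, 22), (4, 30)]),
  (0, 7, 9, [(4, 14), (4, 16), (4, 22), (4, 28)]),
  (0, 9, 9, [(4, 12), (4, 16), (4, 20), (4, 26)]),
  (0, 11, 9, [(4, 12), (4, 14), (4, 18), (4, 24)]),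
  (0, 13, 9, [(1, 13), (4, 22), (4, 28), (4, 30)]),
  (0, 15, 9, [(1, 15), (4, 20), (4, 26), (4, 30)]),
  (0, 17, 9, [(1, 17), (4, 18), (4, 24), (4, 30)]),
  (0, 19, 9, [(4, 16), (1, 19), (4, 26), (4, 28)]),
  (0, 21, 9, [(4, 14), (1, 21), (4, 24), (4, 28)]),
  (0, 23, 9, [(4, 12), (1, 23), (4, 24), (4, 26)]),
  (0, 25, 9, [(4, 16), (4, 20), (4, 22), (1, 25)]),
  (0, 27, 9, [(4, 14), (4, 18), (4, 22), (1, 27)]),
  (0, 29, 9, [(4, 12), (4, 18), (4, 20), (1, 29)]),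
  (0, 31, 9, [(4, 12), (4, 14), (4, 16), (1, 31)]),
  (2, 4, 9, [(4, 12), (4, 14), (4, 16), (4, 31)]),
  (2, 6, 9, [(4, 12), (4, 18), (4, 20), (4, 29)]),
  (2, 8, 9, [(4, 14), (4, 18), (4, 22), (4, 27)]),
  (2, 10, 9, [(4, 16), (4, 20), (4, 22), (4, 25)]),
  (2, 13, 9, [(1, 13), (4, 22), (4, 25), (4, 27)]),
  (2, 15, 9, [(1, 15), (4, 20), (4, 25), (4, 29)]),
  (2, 17, 9, [(1, 17), (4, 18), (4, 27), (4, 29)]),
  (2, 19, 9, [(4, 16), (1, 19), (4, 25), (4, 31)]),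
  (2, 21, 9, [(4, 14), (1, 21), (4, 27), (4, 31)]),
  (2, 23, 9, [(4, 12), (1, 23), (4, 29), (4, 31)]),
  (2, 24, 9, [(4, 12), (4, 14), (4, 18), (1, 24)]),
  (2, 26, 9, [(4, 12), (4, 16), (4, 20), (1, 26)]),
  (2, 28, 9, [(4, 14), (4, 16), (4, 22), (1, 28)]),
  (2, 30, 9, [(4, 18), (4, 20), (4, 22), (1, 30)]),
  (4, 6, 9, [(4, 12), (4, 23), (4, 24), (4, 26)]),
  (4, 8, 9, [(4, 14), (4, 21), (4, 24), (4, 28)]),
  (4, 10, 9, [(4, 16), (4, 19), (4, 26), (4, 28)]),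
  (4, 13, 9, [(1, 13), (4, 19), (4, 21), (4, 28)]),
  (4, 15, 9, [(1, 15), (4, 19), (4, 23), (4, 26)]),
  (4, 17, 9, [(1, 17), (4, 21), (4, 23), (4, 24)]),
  (4, 18, 9, [(4, 12), (4, 14), (1, 18), (4, 24)]),
  (4, 20, 9, [(4, 12), (4, 16), (1, 20), (4, 26)]),
  (4, 22, 9, [(4, 14), (4, 16), (1, 22), (4, 28)]),
  (4, 25, 9, [(4, 16), (4, 19), (1, 25), (4, 31)]),
  (4, 27, 9, [(4, 14), (4, 21), (1, 27), (4, 31)]),
  (4, 29, 9, [(4, 12), (4, 23), (1, 29), (4, 31)]),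
  (4, 30, 9, [(4, 24), (4, 26), (4, 28), (1, 30)]),
  (6, 8, 9, [(4, 17), (4, 18), (4, 24), (4, 30)]),
  (6, 10, 9, [(4, 15), (4, 20), (4, 26), (4, 30)]),
  (6, 13, 9, [(1, 13), (4, 15), (4, 17), (4, 30)]),
  (6, 14, 9, [(4, 12), (1, 14), (4, 18), (4, 24)]),
  (6, 16, 9, [(4, 12), (1, 16), (4, 20), (4, 26)]),
  (6, 19, 9, [(4, 15), (1, 19), (4, 23), (4, 26)]),
  (6, 21, 9, [(4, 17), (1, 21), (4, 23), (4, 24)]),
  (6, 22, 9, [(4, 18), (4, 20), (1, 22), (4, 30)]),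
  (6, 25, 9, [(4, 15), (4, 20), (1, 25), (4, 29)]),
  (6, 27, 9, [(4, 17), (4, 18), (1, 27), (4, 29)]),
  (6, 28, 9, [(4, 24), (4, 26), (1, 28), (4, 30)]),
  (6, 31, 9, [(4, 12), (4, 23), (4, 29), (1, 31)]),
  (8, 10, 9, [(4, 13), (4, 22), (4, 28), (4, 30)]),
  (8, 12, 9, [(1, 12), (4, 14), (4, 18), (4, 24)]),
  (8, 15, 9, [(4, 13), (1, 15), (4, 17), (4, 30)]),
  (8, 16, 9, [(4, 14), (1, 16), (4, 22), (4, 28)]),
  (8, 19, 9, [(4, 13), (1, 19), (4, 21), (4, 28)]),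
  (8, 20, 9, [(4, 18), (1, 20), (4, 22), (4, 30)]),
  (8, 23, 9, [(4, 17), (4, 21), (1, 23), (4, 24)]),
  (8, 25, 9, [(4, 13), (4, 22), (1, 25), (4, 27)]),
  (8, 26, 9, [(4, 24), (1, 26), (4, 28), (4, 30)]),
  (8, 29, 9, [(4, 17), (4, 18), (4, 27), (1, 29)]),
  (8, 31, 9, [(4, 14), (4, 21), (4, 27), (1, 31)]),
  (10, 12, 9, [(1, 12), (4, 16), (4, 20), (4, 26)]),
  (10, 14, 9, [(1, 14), (4, 16), (4, 22), (4, 28)]),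
  (10, 17, 9, [(4, 13), (4, 15), (1, 17), (4, 30)]),
  (10, 18, 9, [(1, 18), (4, 20), (4, 22), (4, 30)]),
  (10, 21, 9, [(4, 13), (4, 19), (1, 21), (4, 28)]),
  (10, 23, 9, [(4, 15), (4, 19), (1, 23), (4, 26)]),
  (10, 24, 9, [(1, 24), (4, 26), (4, 28), (4, 30)]),
  (10, 27, 9, [(4, 13), (4, 22), (4, 25), (1, 27)]),
  (10, 29, 9, [(4, 15), (4, 20), (4, 25), (1, 29)]),
  (10, 31, 9, [(4, 16), (4, 19), (4, 25), (1, 31)]),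
  (12, 15, 4, [(3, 6), (3, 9)]),
  (12, 17, 4, [(3, 6), (3, 11)]),
  (12, 19, 4, [(3, 4), (3, 9)]),
  (12, 21, 4, [(3, 4), (3, 11)]),
  (12, 22, 4, [(3, 0), (3, 2)]),
  (12, 25, 4, [(3, 2), (3, 9)]),
  (12, 27, 4, [(3, 2), (3, 11)]),
  (12, 28, 4, [(3, 0), (3, 4)]),
  (12, 30, 4, [(3, 0), (3, 6)]),
  (14, 17, 4, [(3, 8), (3, 11)]),
  (14, 19, 4, [(3, 4), (3, 7)]),
  (14, 20, 4, [(3, 0), (3, 2)]),
  (14, 23, 4, [(3, 4), (3, 11)]),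
  (14, 25, 4, [(3, 2), (3, 7)]),
  (14, 26, 4, [(3, 0), (3, 4)]),
  (14, 29, 4, [(3, 2), (3, 11)]),
  (14, 30, 4, [(3, 0), (3, 8)]),
  (16, 18, 4, [(3, 0), (3, 2)]),
  (16, 21, 4, [(3, 4), (3, 7)]),
  (16, 23, 4, [(3, 4), (3, 9)]),
  (16, 24, 4, [(3, 0), (3, 4)]),
  (16, 27, 4, [(3, 2), (3, 7)]),
  (16, 29, 4, [(3, 2), (3, 9)]),
  (16, 30, 4, [(3, 0), (3, 10)]),
  (18, 21, 4, [(3, 8), (3, 11)]),
  (18, 23, 4, [(3, 6), (3, 11)]),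
  (18, 25, 4, [(3, 2), (3, 5)]),
  (18, 26, 4, [(3, 0), (3, 6)]),
  (18, 28, 4, [(3, 0), (3, 8)]),
  (18, 31, 4, [(3, 2), (3, 11)]),
  (20, 23, 4, [(3, 6), (3, 9)]),
  (20, 24, 4, [(3, 0), (3, 6)]),
  (20, 27, 4, [(3, 2), (3, 5)]),
  (20, 28, 4, [(3, 0), (3, 10)]),
  (20, 31, 4, [(3, 2), (3, 9)]),
  (22, 24, 4, [(3, 0), (3, 8)]),
  (22, 26, 4, [(3, 0), (3, 10)]),
  (22, 29, 4, [(3, 2), (3, 5)]),
  (22, 31, 4, [(3, 2), (3, 7)]),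
  (24, 27, 4, [(3, 8), (3, 11)]),
  (24, 29, 4, [(3, 6), (3, 11)]),
  (24, 31, 4, [(3, 4), (3, 11)]),
  (26, 29, 4, [(3, 6), (3, 9)]),
  (26, 31, 4, [(3, 4), (3, 9)]),
  (28, 31, 4, [(3, 4), (3, 7)])]

def H : List (ℕ × List ℤ) := [
  (0, [1, 1, 1, 1, 1]),
  (1, [-1, -1, -1, -1, -1]),
  (2, [3, -1, -1, -1, -1]),
  (3, [-3, 1, 1, 1, 1]),
  (4, [-1, 3, -1, -1, -1]),
  (5, [1, -3, 1, 1, 1]),
  (6, [-1, -1, 3, -1, -1]),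
  (7, [1, 1, -3, 1, 1]),
  (8, [-1, -1, -1, 3, -1]),
  (9, [1, 1, 1, -3, 1]),
  (10, [-1, -1, -1, -1, 3]),
  (11, [1, 1, 1, 1, -3]),
  (12, [1, 1, 1, -1, -1]),
  (13, [-1, -1, -1, 1, 1]),
  (14, [1, 1, -1, 1, -1]),
  (15, [-1, -1, 1, -1, 1]),
  (16, [1, 1, -1, -1, 1]),
  (17, [-1, -1, 1, 1, -1]),
  (18, [1, -1, 1, 1, -1]),
  (19, [-1, 1, -1, -1, 1]),
  (20, [1, -1, 1, -1, 1]),
  (21, [-1, 1, -1, 1, -1]),
  (22, [1, -1, -1, 1, 1]),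
  (23, [-1, 1, 1, -1, -1]),
  (24, [-1, 1, 1, 1, -1]),
  (25, [1, -1, -1, -1, 1]),
  (26, [-1, 1, 1, -1, 1]),
  (27, [1, -1, -1, 1, -1]),
  (28, [-1, 1, -1, 1, 1]),
  (29, [1, -1, 1, -1, -1]),
  (30, [-1, -1, 1, 1, 1]),
  (31, [1, 1, -1, -1, -1])]

def B : List (ℕ × List (ℕ × ℕ)) := [
  (4, [(1, 2)]),
  (24, [(3, 0), (4, 16), (4, 21), (4, 23)]),
  (24, [(3, 0), (4, 17), (4, 20), (4, 23)]),
  (24, [(3, 0), (4, 17), (4, 21), (4, 22)]),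
  (24, [(3, 1), (6, 3), (4, 16), (4, 20), (4, 22)])]

def Q : List (List ℕ × ℕ × List (ℕ × ℕ)) := [
]

def NF : List ℕ := [
]

theorem checks : Checks 5 32 L certs H B Q NF where
  nf := by decide +kernel
  nfm := by decide +kernel
  idx := by decide +kernel
  len := by decide +kernel
  anti := by decide +kernel
  sym := by decide +kernel
  cert := by decide +kernel
  pairs := pairs_of (N := 32) (by decide +kernel) (by decide +kernel)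
  cyc := cyc_of (N := 32) (by decide +kernel) (by decide +kernel)
  clique := by decide +kernel
  vert := by decide +kernel
  basis := by decide +kernel
  pos := by norm_num

end Pool.Agent.CSP.D5
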