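import Pool.Agent.CSP.Main

/-! # Faster forms of two of the checks -/

set_option autoImplicit false

namespace Pool.Agent.CSP

/-- The bit mask of the vertices which form a certified pair with `u`. -/
def cm : List (ℕ × ℕ × ℕ × List (ℕ × ℕ)) → ℕ → ℕ
  | [], _ => 0
  | c :: cs, u =>
    if u / 2 = c.1 / 2 then cm cs u ||| 2 ^ (2 * (c.2.1 / 2) + (u + c.1 + c.2.1) % 2)
    else if u / 2 = c.2.1 / 2 then cm cs u ||| 2 ^ (2 * (c.1 / 2) + (u + c.1 + c.2.1) % 2)
    else cm cs u

theorem cm_spec : ∀ (cs : List (ℕ × ℕ × ℕ × List (ℕ × ℕ))) (u w : ℕ),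
    (cm cs u).testBit w = true → ∃ c ∈ cs, key u w = key c.1 c.2.1 := by
  intro cs
  induction cs with
  | nil =>
    intro u w h
    simp [cm] at h
  | cons c cs ih =>
    intro u w h
    unfold cm at h
    by_cases h1 : u / 2 = c.1 / 2
    · rw [if_pos h1, Nat.testBit_or, Bool.or_eq_true, Nat.testBit_two_pow] at h
      rcases h with h | h
      · obtain ⟨c', h2, h3⟩ := ih u w h
        exact ⟨c', by simp [h2], h3⟩
      · refine ⟨c, by simp, ?_⟩
        have h2 := of_decide_eq_true h
        have h3 : w / 2 = c.2.1 / 2 := by omega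
        have h4 : (u + w) % 2 = (c.1 + c.2.1) % 2 := by omega
        unfold key
        rw [h1, h3, h4]
    · rw [if_neg h1] at h
      by_cases h5 : u / 2 = c.2.1 / 2
      · rw [if_pos h5, Nat.testBit_or, Bool.or_eq_true, Nat.testBit_two_pow] at h
        rcases h with h | h
        · obtain ⟨c', h2, h3⟩ := ih u w h
          exact ⟨c', by simp [h2], h3⟩
        · refine ⟨c, by simp, ?_⟩
          have h2 := of_decide_eq_true h
          have h3 : w / 2 = c.1 / 2 := by omega
          have h4 : (u + w) % 2 = (c.1 + c.2.1) % 2 := by omega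
          unfold key
          rw [h5, h3, h4, min_comm, max_comm]
      · rw [if_neg h5] at h
        obtain ⟨c', h2, h3⟩ := ih u w h
        exact ⟨c', by simp [h2], h3⟩

variable {N : ℕ} {L : List (ℕ × ℕ × List ℤ)} {certs : List (ℕ × ℕ × ℕ × List (ℕ × ℕ))}

theorem pairs_of (hN : (L.all fun e => decide (e.1 < N)) = true)
    (h : (L.all fun e => decide (e.2.1 ||| cm certs e.1 ||| (2 ^ (2 * (e.1 / 2)) |||
      2 ^ (2 * (e.1 / 2) + 1)) = 2 ^ N - 1)) = true) :
    (L.all fun e => L.all fun e' => decide (e.1 / 2 = e'.1 / 2) || e.2.1.testBit e'.1 ||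
      (certs.any fun c => decide (key e.1 e'.1 = key c.1 c.2.1))) = true := by
  rw [List.all_eq_true] at hN h ⊢
  intro e he
  rw [List.all_eq_true]
  intro e' he'
  have h1 : e'.1 < N := of_decide_eq_true (hN e' he')
  have h2 := of_decide_eq_true (h e he)
  have h3 : (e.2.1 ||| cm certs e.1 ||| (2 ^ (2 * (e.1 / 2)) |||
      2 ^ (2 * (e.1 / 2) + 1))).testBit e'.1 = true := by
    rw [h2, Nat.testBit_two_pow_sub_one]
    exact decide_eq_true h1
  rw [Nat.testBit_or, Nat.testBit_or, Nat.testBit_or, Nat.testBit_two_pow, Nat.testBit_two_pow,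
    Bool.or_eq_true, Bool.or_eq_true, Bool.or_eq_true] at h3
  rw [Bool.or_eq_true, Bool.or_eq_true]
  rcases h3 with (h3 | h3) | h3
  · exact Or.inl (Or.inr h3)
  · obtain ⟨c, h4, h5⟩ := cm_spec _ _ _ h3
    exact Or.inr (List.any_eq_true.2 ⟨c, h4, decide_eq_true h5⟩)
  · refine Or.inl (Or.inl (decide_eq_true ?_))
    rcases h3 with h3 | h3
    · have := of_decide_eq_true h3
      omega
    · have := of_decide_eq_true h3
      omega

theorem cyc_of (hN : (L.all fun e => decide (e.1 < N)) = true)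
    (h : (L.all fun e => decide (cm certs (2 * (e.1 / 2)) ||| cm certs (2 * (e.1 / 2) + 1) |||
      (2 ^ (2 * (e.1 / 2)) ||| 2 ^ (2 * (e.1 / 2) + 1)) = 2 ^ N - 1)) = true) :
    (L.all fun e => L.all fun e' => decide (e.1 / 2 = e'.1 / 2) ||
    ((certs.any fun c => decide (key c.1 c.2.1 =
      (min (e.1 / 2) (e'.1 / 2), max (e.1 / 2) (e'.1 / 2), 0))) ||
     (certs.any fun c => decide (key c.1 c.2.1 =
      (min (e.1 / 2) (e'.1 / 2), max (e.1 / 2) (e'.1 / 2), 1))))) = true := by
  rw [List.all_eq_true] at hN h ⊢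
  intro e he
  rw [List.all_eq_true]
  intro e' he'
  have h1 : e'.1 < N := of_decide_eq_true (hN e' he')
  have h2 := of_decide_eq_true (h e he)
  have h3 : (cm certs (2 * (e.1 / 2)) ||| cm certs (2 * (e.1 / 2) + 1) |||
      (2 ^ (2 * (e.1 / 2)) ||| 2 ^ (2 * (e.1 / 2) + 1))).testBit e'.1 = true := by
    rw [h2, Nat.testBit_two_pow_sub_one]
    exact decide_eq_true h1
  rw [Nat.testBit_or, Nat.testBit_or, Nat.testBit_or, Nat.testBit_two_pow, Nat.testBit_two_pow,
    Bool.or_eq_true, Bool.or_eq_true, Bool.or_eq_true] at h3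
  have key' : ∀ s : ℕ, s < 2 → (∃ c ∈ certs, key (2 * (e.1 / 2) + s) e'.1 = key c.1 c.2.1) →
      ((certs.any fun c => decide (key c.1 c.2.1 =
      (min (e.1 / 2) (e'.1 / 2), max (e.1 / 2) (e'.1 / 2), 0))) ||
     (certs.any fun c => decide (key c.1 c.2.1 =
      (min (e.1 / 2) (e'.1 / 2), max (e.1 / 2) (e'.1 / 2), 1)))) = true := by
    rintro s hs ⟨c, h4, h5⟩
    have h6 : (2 * (e.1 / 2) + s) / 2 = e.1 / 2 := by omega
    have h7 : (2 * (e.1 / 2) + s + e'.1) % 2 = 0 ∨ (2 * (e.1 / 2) + s + e'.1) % 2 = 1 := by omega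
    unfold key at h5
    rw [h6] at h5
    rw [Bool.or_eq_true]
    rcases h7 with h7 | h7
    · left
      rw [h7] at h5
      exact List.any_eq_true.2 ⟨c, h4, decide_eq_true h5.symm⟩
    · right
      rw [h7] at h5
      exact List.any_eq_true.2 ⟨c, h4, decide_eq_true h5.symm⟩
  rw [Bool.or_eq_true]
  rcases h3 with (h3 | h3) | h3
  · exact Or.inr (key' 0 (by norm_num) (by simpa using cm_spec _ _ _ h3))
  · exact Or.inr (key' 1 (by norm_num) (cm_spec _ _ _ h3))
  · refine Or.inl (decide_eq_true ?_)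
    rcases h3 with h3 | h3
    · have := of_decide_eq_true h3
      omega
    · have := of_decide_eq_true h3
      omega

/-- The branch of the check in which the vertex at position `p` is the first chosen one. -/
def br (NF : List ℕ) (L : List (ℕ × ℕ × List ℤ)) (cand : ℕ) (G : List (List ℤ)) (p : ℕ) : Bool :=
  match L.drop p with
  | [] => true
  | e :: es => if cand.testBit e.1 then
      (match step G e.2.2 with
        | none => NF.any fun T => decide (T &&& (0 ||| 2 ^ e.1) = T)
        | some G' => chk NF es (cand &&& e.2.1) (0 ||| 2 ^ e.1) G') else true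

theorem chk_of_br (NF : List ℕ) (cand : ℕ) (G : List (List ℤ)) : ∀ L : List (ℕ × ℕ × List ℤ),
    (∀ p < L.length, br NF L cand G p = true) → chk NF L cand 0 G = true := by
  intro L
  induction L with
  | nil =>
    intro _
    rfl
  | cons e es ih =>
    intro h
    unfold chk
    rw [Bool.and_eq_true]
    refine ⟨ih fun p hp => ?_, ?_⟩
    · have := h (p + 1) (by simpa using hp)
      exact this
    · exact h 0 (by simp)

theorem chk_of_parts {NF : List ℕ} {L : List (ℕ × ℕ × List ℤ)} {cand : ℕ} {G : List (List ℤ)}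
    (K c : ℕ) (hl : L.length ≤ K * c) (hc : 0 < c)
    (h : ∀ i < K, ((List.range c).all fun j => br NF L cand G (c * i + j)) = true) :
    chk NF L cand 0 G = true := by
  refine chk_of_br NF cand G L fun p hp => ?_
  have h1 : p / c < K := by
    rw [Nat.div_lt_iff_lt_mul hc]
    omega
  have h2 := List.all_eq_true.1 (h (p / c) h1) (p % c) (List.mem_range.2 (Nat.mod_lt _ hc))
  rwa [Nat.div_add_mod] at h2

end Pool.Agent.CSP
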