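import Pool.Agent.CSP.Poly

/-! # From the checks to the polytope -/

set_option autoImplicit false

namespace Pool.Agent.CSP

open Set

noncomputable section

variable {d N : ℕ} {L : List (ℕ × ℕ × List ℤ)} {certs : List (ℕ × ℕ × ℕ × List (ℕ × ℕ))}
  {H : List (ℕ × List ℤ)} {B : List (ℕ × List (ℕ × ℕ))}
  {Q : List (List ℕ × ℕ × List (ℕ × ℕ))} {NF : List ℕ}

/-- The signed vertices. -/
def fv (d : ℕ) (L : List (ℕ × ℕ × List ℤ)) (k : ℕ) : Fin d → ℝ := toVec d (vecAt L k)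

/-- The combination of the signed vertices. -/
def comboV (d : ℕ) (L : List (ℕ × ℕ × List ℤ)) : List (ℕ × ℕ) → Fin d → ℝ
  | [] => 0
  | c :: cs => (c.1 : ℝ) • fv d L c.2 + comboV d L cs

theorem comboV_apply (cs : List (ℕ × ℕ)) (t : Fin d) :
    comboV d L cs t = ((combo L t cs : ℤ) : ℝ) := by
  induction cs with
  | nil => simp [comboV, combo]
  | cons c cs ih =>
    simp only [comboV, combo, Pi.add_apply, Pi.smul_apply, smul_eq_mul, ih, fv, toVec]
    push_cast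
    ring

theorem comboV_le (cs : List (ℕ × ℕ)) (l : (Fin d → ℝ) →ₗ[ℝ] ℝ) (M : ℝ)
    (h : ∀ k < N, l (fv d L k) ≤ M) (hcs : ∀ p ∈ cs, p.2 < N) :
    l (comboV d L cs) ≤ ((cs.map (·.1)).sum : ℕ) * M := by
  induction cs with
  | nil => simp [comboV]
  | cons c cs ih =>
    simp only [comboV, map_add, map_smul, smul_eq_mul, List.map_cons, List.sum_cons]
    have h1 := ih fun p hp => hcs p (by simp [hp])
    have h2 := h c.2 (hcs c (by simp))
    have h3 : (c.1 : ℝ) * l (fv d L c.2) ≤ c.1 * M := mul_le_mul_of_nonneg_left h2 (by positivity)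
    rw [Nat.cast_add, add_mul]
    linarith

theorem comboV_span (cs : List (ℕ × ℕ)) (S : Submodule ℝ (Fin d → ℝ))
    (h : ∀ k < N, fv d L k ∈ S) (hcs : ∀ p ∈ cs, p.2 < N) : comboV d L cs ∈ S := by
  induction cs with
  | nil => exact S.zero_mem
  | cons c cs ih =>
    exact S.add_mem (S.smul_mem _ (h c.2 (hcs c (by simp)))) (ih fun p hp => hcs p (by simp [hp]))

theorem mem_idx (hc : Checks d N L certs H B Q NF) {k : ℕ} : k < N ↔ ∃ e ∈ L, e.1 = k := by
  have h1 : k ∈ L.map (·.1) ↔ k < N := by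
    rw [hc.idx, List.mem_reverse, List.mem_range]
  rw [← h1, List.mem_map]

theorem fv_entry (hc : Checks d N L certs H B Q NF) {e : ℕ × ℕ × List ℤ} (he : e ∈ L) :
    fv d L e.1 = toVec d e.2.2 := by
  unfold fv
  rw [vecAt_eq _ e he]
  rw [hc.idx, List.nodup_reverse]
  exact List.nodup_range

theorem toVec_neg (w : List ℤ) : toVec d (w.map fun z => -z) = -toVec d w := by
  funext i
  simp only [toVec, Pi.neg_apply, List.getD_eq_getElem?_getD, List.getElem?_map]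
  cases w[(i : ℕ)]? <;> simp

theorem fv_anti (hc : Checks d N L certs H B Q NF) {k k' : ℕ} (hk : k < N) (hk' : k' < N) (hne : k ≠ k')
    (hh : k / 2 = k' / 2) : fv d L k' = -fv d L k := by
  obtain ⟨e, he, rfl⟩ := (mem_idx hc).1 hk
  obtain ⟨e', he', rfl⟩ := (mem_idx hc).1 hk'
  have h := List.all_eq_true.1 (List.all_eq_true.1 hc.anti e he) e' he'
  simp only [hne, hh, decide_false, decide_true, Bool.not_true, Bool.false_or,
    decide_eq_true_eq] at h
  rw [fv_entry hc he, fv_entry hc he', h, toVec_neg]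

theorem exists_anti (hc : Checks d N L certs H B Q NF) {k : ℕ} (hk : k < N) :
    ∃ k' < N, k ≠ k' ∧ k / 2 = k' / 2 ∧ fv d L k' = -fv d L k := by
  obtain ⟨e, he, rfl⟩ := (mem_idx hc).1 hk
  obtain ⟨e', he', h⟩ := List.any_eq_true.1 (List.all_eq_true.1 hc.sym e he)
  simp only [Bool.and_eq_true, Bool.not_eq_true', decide_eq_false_iff_not, decide_eq_true_eq] at h
  have hk' : e'.1 < N := (mem_idx hc).2 ⟨e', he', rfl⟩
  exact ⟨e'.1, hk', h.1, h.2, fv_anti hc hk hk' h.1 h.2⟩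

/-- A certificate excludes that both vertices maximise `l`. -/
theorem cert_lt (hc : Checks d N L certs H B Q NF) {c : ℕ × ℕ × ℕ × List (ℕ × ℕ)} (hm : c ∈ certs)
    (l : (Fin d → ℝ) →ₗ[ℝ] ℝ) {M : ℝ} (hM : 0 < M) (h : ∀ k < N, l (fv d L k) ≤ M) :
    c.1 < N ∧ c.2.1 < N ∧ l (fv d L c.1) + l (fv d L c.2.1) < 2 * M := by
  have h0 := List.all_eq_true.1 hc.cert c hm
  unfold certOk at h0
  simp only [Bool.and_eq_true, decide_eq_true_eq, List.all_eq_true, List.mem_range] at h0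
  obtain ⟨⟨⟨⟨h1, h2⟩, h3⟩, h4⟩, h5⟩ := h0
  refine ⟨h1, h2, ?_⟩
  have hv : (c.2.2.1 : ℝ) • (fv d L c.1 + fv d L c.2.1) = comboV d L c.2.2.2 := by
    funext t
    rw [comboV_apply, ← h5 t t.2]
    simp only [Pi.smul_apply, Pi.add_apply, smul_eq_mul, fv, toVec]
    push_cast
    ring
  have hle := comboV_le (N := N) c.2.2.2 l M h h3
  rw [← hv, map_smul, map_add, smul_eq_mul] at hle
  have h6 : (((c.2.2.2.map (·.1)).sum : ℕ) : ℝ) < 2 * c.2.2.1 := by exact_mod_cast h4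
  have h7 : (0 : ℝ) < c.2.2.1 := by
    have : 0 ≤ (((c.2.2.2.map (·.1)).sum : ℕ) : ℝ) := by positivity
    linarith
  have h8 : (((c.2.2.2.map (·.1)).sum : ℕ) : ℝ) * M < 2 * c.2.2.1 * M :=
    mul_lt_mul_of_pos_right h6 hM
  by_contra hcon
  push Not at hcon
  have h9 : (c.2.2.1 : ℝ) * (2 * M) ≤ c.2.2.1 * (l (fv d L c.1) + l (fv d L c.2.1)) :=
    mul_le_mul_of_nonneg_left hcon h7.le
  linarith

theorem key_cases (hc : Checks d N L certs H B Q NF) {u w i j : ℕ} (hu : u < N) (hw : w < N) (hi : i < N)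
    (hj : j < N) (h : key u w = key i j) :
    (fv d L u = fv d L i ∧ fv d L w = fv d L j) ∨ (fv d L u = -fv d L i ∧ fv d L w = -fv d L j) ∨
    (fv d L u = fv d L j ∧ fv d L w = fv d L i) ∨ (fv d L u = -fv d L j ∧ fv d L w = -fv d L i) := by
  have aux : ∀ {a b a' b' : ℕ}, a < N → b < N → a' < N → b' < N → a / 2 = a' / 2 → b / 2 = b' / 2 →
      (a + b) % 2 = (a' + b') % 2 →
      (fv d L a = fv d L a' ∧ fv d L b = fv d L b') ∨
      (fv d L a = -fv d L a' ∧ fv d L b = -fv d L b') := by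
    intro a b a' b' ha hb ha' hb' h1 h2 h3
    by_cases h4 : a = a'
    · have : b = b' := by omega
      exact Or.inl ⟨by rw [h4], by rw [this]⟩
    · have h5 : b ≠ b' := by omega
      exact Or.inr ⟨fv_anti hc ha' ha (Ne.symm h4) h1.symm, fv_anti hc hb' hb (Ne.symm h5) h2.symm⟩
  unfold key at h
  simp only [Prod.mk.injEq] at h
  obtain ⟨h1, h2, h3⟩ := h
  have h4 : (u / 2 = i / 2 ∧ w / 2 = j / 2) ∨ (u / 2 = j / 2 ∧ w / 2 = i / 2) := by omega
  rcases h4 with ⟨h5, h6⟩ | ⟨h5, h6⟩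
  · rcases aux hu hw hi hj h5 h6 h3 with h | h
    · exact Or.inl h
    · exact Or.inr (Or.inl h)
  · rcases aux hu hw hj hi h5 h6 (by omega) with h | h
    · exact Or.inr (Or.inr (Or.inl h))
    · exact Or.inr (Or.inr (Or.inr h))

/-- Two vertices excluded by a certificate are not both maximal. -/
theorem not_both (hc : Checks d N L certs H B Q NF) {c : ℕ × ℕ × ℕ × List (ℕ × ℕ)} (hm : c ∈ certs)
    {u w : ℕ} (hu : u < N) (hw : w < N) (hk : key u w = key c.1 c.2.1)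
    (l : (Fin d → ℝ) →ₗ[ℝ] ℝ) {M : ℝ} (hM : 0 < M) (h : ∀ k < N, l (fv d L k) ≤ M) :
    ¬ (l (fv d L u) = M ∧ l (fv d L w) = M) := by
  rintro ⟨h1, h2⟩
  obtain ⟨hi, hj, h3⟩ := cert_lt hc hm l hM h
  have h' : ∀ k < N, (-l) (fv d L k) ≤ M := by
    intro k hk
    obtain ⟨k', hk', _, _, h5⟩ := exists_anti hc hk
    have := h k' hk'
    rw [h5, map_neg] at this
    simpa using this
  obtain ⟨_, _, h4⟩ := cert_lt hc hm (-l) hM h'
  simp only [LinearMap.neg_apply] at h4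
  rcases key_cases hc hu hw hi hj hk with ⟨h5, h6⟩ | ⟨h5, h6⟩ | ⟨h5, h6⟩ | ⟨h5, h6⟩ <;>
    rw [h5] at h1 <;> rw [h6] at h2 <;> (try rw [map_neg] at h1 h2) <;> linarith

theorem mem_maskOf {ks : List ℕ} {t : ℕ} : (maskOf ks).testBit t = true ↔ t ∈ ks := by
  induction ks with
  | nil => simp [maskOf]
  | cons k ks ih =>
    rw [maskOf, Nat.testBit_or, Bool.or_eq_true, ih, Nat.testBit_two_pow, List.mem_cons]
    simp only [decide_eq_true_eq]
    constructor
    · rintro (h | h)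
      · exact Or.inr h
      · exact Or.inl h.symm
    · rintro (h | h)
      · exact Or.inr h.symm
      · exact Or.inl h

/-- The sum of some signed vertices. -/
def sumV (d : ℕ) (L : List (ℕ × ℕ × List ℤ)) : List ℕ → Fin d → ℝ
  | [] => 0
  | k :: ks => fv d L k + sumV d L ks

theorem sumV_apply (ks : List ℕ) (t : Fin d) : sumV d L ks t = ((sumAt L t ks : ℤ) : ℝ) := by
  induction ks with
  | nil => simp [sumV, sumAt]
  | cons k ks ih =>
    simp only [sumV, sumAt, Pi.add_apply, ih, fv, toVec]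
    push_cast
    ring

theorem sumV_eq (ks : List ℕ) (l : (Fin d → ℝ) →ₗ[ℝ] ℝ) (M : ℝ)
    (h : ∀ k ∈ ks, l (fv d L k) = M) : l (sumV d L ks) = ks.length * M := by
  induction ks with
  | nil => simp [sumV]
  | cons k ks ih =>
    rw [sumV, map_add, h k (by simp), ih fun k hk => h k (by simp [hk]), List.length_cons]
    push_cast
    ring

/-- A certified set is not contained in a proper face. -/
theorem nf_not (hc : Checks d N L certs H B Q NF) {T : ℕ} (hT : T ∈ NF)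
    (l : (Fin d → ℝ) →ₗ[ℝ] ℝ) {M : ℝ} (hM : 0 < M) (h : ∀ k < N, l (fv d L k) ≤ M) :
    ∃ t, T.testBit t = true ∧ t ∉ {k | k < N ∧ l (fv d L k) = M} := by
  rw [hc.nfm] at hT
  obtain ⟨c, hm, rfl⟩ := List.mem_map.1 hT
  by_contra hcon
  push Not at hcon
  have h1 : ∀ k ∈ c.1, l (fv d L k) = M := fun k hk => (hcon k (mem_maskOf.2 hk)).2
  have h0 := List.all_eq_true.1 hc.nf c hm
  unfold nfOk at h0
  simp only [Bool.and_eq_true, decide_eq_true_eq, List.all_eq_true, List.mem_range] at h0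
  obtain ⟨⟨⟨_, h3⟩, h4⟩, h5⟩ := h0
  have hv : (c.2.1 : ℝ) • sumV d L c.1 = comboV d L c.2.2 := by
    funext t
    rw [comboV_apply, ← h5 t t.2]
    simp only [Pi.smul_apply, smul_eq_mul, sumV_apply]
    push_cast
    ring
  have hle := comboV_le (N := N) c.2.2 l M h h3
  rw [← hv, map_smul, sumV_eq c.1 l M h1, smul_eq_mul] at hle
  have h6 : (((c.2.2.map (·.1)).sum : ℕ) : ℝ) < c.2.1 * c.1.length := by exact_mod_cast h4
  have h8 : (((c.2.2.map (·.1)).sum : ℕ) : ℝ) * M < c.2.1 * c.1.length * M :=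
    mul_lt_mul_of_pos_right h6 hM
  linarith

/-- The vertex set. -/
def VS (d N : ℕ) (L : List (ℕ × ℕ × List ℤ)) : Finset (Fin d → ℝ) := by
  classical exact (Finset.range N).image (fv d L)

theorem mem_VS {v : Fin d → ℝ} : v ∈ VS d N L ↔ ∃ k < N, fv d L k = v := by
  classical
  simp [VS]

/-- The polytope. -/
def PS (d N : ℕ) (L : List (ℕ × ℕ × List ℤ)) : Set (Fin d → ℝ) :=
  convexHull ℝ (VS d N L : Set (Fin d → ℝ))

theorem face_form {F : Set (Fin d → ℝ)} (hF : F.Nonempty) (hE : IsExposed ℝ (PS d N L) F) :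
    ∃ (l : (Fin d → ℝ) →ₗ[ℝ] ℝ) (M : ℝ), (∀ k < N, l (fv d L k) ≤ M) ∧
      F = {x ∈ PS d N L | l x = M} := by
  obtain ⟨l, hl⟩ := hE hF
  obtain ⟨x0, hx0⟩ := hF
  have h0 := hx0
  rw [hl] at h0
  refine ⟨(l : (Fin d → ℝ) →ₗ[ℝ] ℝ), l x0, fun k hk => ?_, ?_⟩
  · exact h0.2 _ (subset_convexHull ℝ _ (mem_VS.2 ⟨k, hk, rfl⟩))
  · rw [hl]
    ext x
    constructor
    · rintro ⟨h1, h2⟩
      exact ⟨h1, le_antisymm (h0.2 x h1) (h2 x0 h0.1)⟩
    · rintro ⟨h1, h2⟩
      refine ⟨h1, fun y hy => ?_⟩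
      have h3 : l x = l x0 := h2
      rw [h3]
      exact h0.2 y hy

theorem face_hull (l : (Fin d → ℝ) →ₗ[ℝ] ℝ) {M : ℝ} (h : ∀ k < N, l (fv d L k) ≤ M) :
    {x ∈ PS d N L | l x = M} = convexHull ℝ (fv d L '' {k | k < N ∧ l (fv d L k) = M}) := by
  unfold PS
  rw [face_eq (VS d N L) l M ?_]
  · congr 1
    ext v
    constructor
    · rintro ⟨h1, h2⟩
      obtain ⟨k, hk, rfl⟩ := mem_VS.1 h1
      exact ⟨k, ⟨hk, h2⟩, rfl⟩
    · rintro ⟨k, ⟨hk, h2⟩, rfl⟩
      exact ⟨mem_VS.2 ⟨k, hk, rfl⟩, h2⟩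
  · intro v hv
    obtain ⟨k, hk, rfl⟩ := mem_VS.1 hv
    exact h k hk

theorem pos_of_ne (hc : Checks d N L certs H B Q NF) (l : (Fin d → ℝ) →ₗ[ℝ] ℝ) {M : ℝ}
    (h : ∀ k < N, l (fv d L k) ≤ M) (hne : {x ∈ PS d N L | l x = M} ≠ PS d N L) : 0 < M := by
  by_contra hM
  apply hne
  have h1 : ∀ k < N, l (fv d L k) = M := by
    intro k hk
    obtain ⟨k', hk', _, _, h5⟩ := exists_anti hc hk
    have h2 := h k' hk'
    rw [h5, map_neg] at h2
    have h3 := h k hk
    linarith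
  rw [face_hull l h]
  unfold PS
  congr 1
  ext v
  constructor
  · rintro ⟨k, ⟨hk, _⟩, rfl⟩
    exact mem_VS.2 ⟨k, hk, rfl⟩
  · intro hv
    obtain ⟨k, hk, rfl⟩ := mem_VS.1 hv
    exact ⟨k, ⟨hk, h1 k hk⟩, rfl⟩

theorem indep (hc : Checks d N L certs H B Q NF) (l : (Fin d → ℝ) →ₗ[ℝ] ℝ) {M : ℝ} (hM : 0 < M)
    (h : ∀ k < N, l (fv d L k) ≤ M) :
    LinearIndepOn ℝ (fv d L) {k | k < N ∧ l (fv d L k) = M} := by
  have h1 := chk_spec (fv d L) NF L (2 ^ N - 1) 0 _ hc.clique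
    (fun e he => by simpa using List.all_eq_true.1 hc.len e he)
    (by
      intro g hg
      obtain ⟨t, _, rfl⟩ := List.mem_map.1 hg
      simp)
    (fun e he => fv_entry hc he) ∅ (linearIndepOn_empty ℝ _) (by simp) (by simp)
    {k | k < N ∧ l (fv d L k) = M}
    (by
      rintro k ⟨hk, _⟩
      exact (mem_idx hc).1 hk)
    (by
      rintro k ⟨hk, _⟩
      rw [Nat.testBit_two_pow_sub_one]
      simpa using hk)
    (by
      rintro e he ⟨hk, h2⟩ s ⟨hs, h3⟩ hne
      obtain ⟨e', he', rfl⟩ := (mem_idx hc).1 hs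
      have h4 := List.all_eq_true.1 (List.all_eq_true.1 hc.pairs e he) e' he'
      rw [Bool.or_eq_true, Bool.or_eq_true] at h4
      rcases h4 with (h4 | h4) | h4
      · have h5 := fv_anti hc hk hs (Ne.symm hne) (by simpa using h4)
        rw [h5, map_neg, h2] at h3
        linarith
      · exact h4
      · obtain ⟨c, hm, h5⟩ := List.any_eq_true.1 h4
        exact absurd ⟨h2, h3⟩ (not_both hc hm hk hs (by simpa using h5) l hM h))
    (by
      intro T hT
      obtain ⟨t, ht, ht2⟩ := nf_not hc hT l hM h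
      exact ⟨t, ht, by simp, ht2⟩)
  rwa [Set.empty_union] at h1

theorem vert_fun (hc : Checks d N L certs H B Q NF) {k : ℕ} (hk : k < N) :
    ∃ l : (Fin d → ℝ) →ₗ[ℝ] ℝ, ∀ k' < N, k' ≠ k → l (fv d L k') < l (fv d L k) := by
  obtain ⟨e, he, rfl⟩ := (mem_idx hc).1 hk
  obtain ⟨h, _, h2⟩ := List.any_eq_true.1 (List.all_eq_true.1 hc.vert e he)
  simp only [Bool.and_eq_true, decide_eq_true_eq] at h2
  obtain ⟨⟨_, h3⟩, h4⟩ := h2
  refine ⟨lin d h.2, fun k' hk' hne => ?_⟩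
  obtain ⟨e', he', rfl⟩ := (mem_idx hc).1 hk'
  have h5 := List.all_eq_true.1 h4 e' he'
  simp only [hne, decide_false, Bool.false_or, decide_eq_true_eq] at h5
  have hl := List.all_eq_true.1 hc.len
  rw [fv_entry hc he, fv_entry hc he', lin_toVec h3 (by simpa using hl e' he'),
    lin_toVec h3 (by simpa using hl e he)]
  exact_mod_cast h5

theorem fv_injOn (hc : Checks d N L certs H B Q NF) : Set.InjOn (fv d L) {k | k < N} := by
  intro a ha b hb hab
  by_contra hne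
  obtain ⟨l, hl⟩ := vert_fun hc hb
  have := hl a ha hne
  rw [hab] at this
  exact lt_irrefl _ this

theorem extreme (hc : Checks d N L certs H B Q NF) :
    (PS d N L).extremePoints ℝ = fv d L '' {k | k < N} := by
  apply Subset.antisymm
  · intro x hx
    obtain ⟨k, hk, rfl⟩ := mem_VS.1 (extremePoints_convexHull_subset hx)
    exact ⟨k, hk, rfl⟩
  · rintro _ ⟨k, hk, rfl⟩
    obtain ⟨l, hl⟩ := vert_fun hc hk
    have hle : ∀ k' < N, l (fv d L k') ≤ l (fv d L k) := by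
      intro k' hk'
      by_cases h : k' = k
      · rw [h]
      · exact (hl k' hk' h).le
    have h1 := face_hull l hle
    have h2 : ({k' | k' < N ∧ l (fv d L k') = l (fv d L k)} : Set ℕ) = {k} := by
      ext k'
      constructor
      · rintro ⟨h3, h4⟩
        by_contra h5
        exact absurd h4 (hl k' h3 h5).ne
      · rintro rfl
        exact ⟨hk, rfl⟩
    rw [h2, Set.image_singleton, convexHull_singleton] at h1
    rw [← isExtreme_singleton, ← h1]
    refine IsExposed.isExtreme (fun _ => ⟨LinearMap.toContinuousLinearMap l, ?_⟩)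
    ext x
    constructor
    · rintro ⟨h3, h4⟩
      refine ⟨h3, fun y hy => ?_⟩
      have h5 : PS d N L ⊆ {y | l y ≤ l (fv d L k)} := by
        refine convexHull_min ?_ (convex_halfSpace_le (LinearMap.isLinear l) _)
        intro v hv
        obtain ⟨k', hk', rfl⟩ := mem_VS.1 hv
        exact hle k' hk'
      have h6 : l y ≤ l x := by
        rw [h4]
        exact h5 hy
      exact h6
    · rintro ⟨h3, h4⟩
      refine ⟨h3, le_antisymm ?_ ?_⟩
      · have h5 : PS d N L ⊆ {y | l y ≤ l (fv d L k)} := by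
          refine convexHull_min ?_ (convex_halfSpace_le (LinearMap.isLinear l) _)
          intro v hv
          obtain ⟨k', hk', rfl⟩ := mem_VS.1 hv
          exact hle k' hk'
        exact h5 h3
      · exact h4 _ (subset_convexHull ℝ _ (mem_VS.2 ⟨k, hk, rfl⟩))

theorem span_top (hc : Checks d N L certs H B Q NF) :
    Submodule.span ℝ (fv d L '' {k | k < N}) = ⊤ := by
  rw [eq_top_iff]
  intro x _
  have hx : x = ∑ t : Fin d, x t • (Pi.single t 1 : Fin d → ℝ) := by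
    funext s
    simp [Finset.sum_apply, Pi.single_apply]
  rw [hx]
  refine Submodule.sum_mem _ fun t _ => Submodule.smul_mem _ _ ?_
  obtain ⟨b, _, h2⟩ := List.any_eq_true.1 (List.all_eq_true.1 hc.basis t (by simp))
  simp only [Bool.and_eq_true, decide_eq_true_eq, List.all_eq_true, List.mem_range] at h2
  obtain ⟨⟨h3, h4⟩, h5⟩ := h2
  have h6 : comboV d L b.2 ∈ Submodule.span ℝ (fv d L '' {k | k < N}) :=
    comboV_span (N := N) b.2 _ (fun k hk => Submodule.subset_span ⟨k, hk, rfl⟩) h4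
  have h7 : (b.1 : ℝ) • (Pi.single t 1 : Fin d → ℝ) = comboV d L b.2 := by
    funext s
    rw [comboV_apply, ← h5 s s.2]
    by_cases hst : s = t
    · subst hst
      simp
    · have : (s : ℕ) ≠ t := fun h => hst (Fin.ext h)
      simp [hst, this]
  have h8 : (b.1 : ℝ) ≠ 0 := by
    have : (0 : ℝ) < b.1 := by exact_mod_cast h3
    exact this.ne'
  have h9 : (Pi.single t 1 : Fin d → ℝ) = (b.1 : ℝ)⁻¹ • comboV d L b.2 := by
    rw [← h7, smul_smul, inv_mul_cancel₀ h8, one_smul]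
  rw [h9]
  exact Submodule.smul_mem _ _ h6

theorem full (hc : Checks d N L certs H B Q NF) : (interior (PS d N L)).Nonempty := by
  unfold PS
  rw [interior_convexHull_nonempty_iff_affineSpan_eq_top]
  have hN : 0 < N := lt_trans (by norm_num) hc.pos
  obtain ⟨k', hk', _, _, h5⟩ := exists_anti hc hN
  have h0 : (0 : Fin d → ℝ) ∈ affineSpan ℝ (VS d N L : Set (Fin d → ℝ)) := by
    apply convexHull_subset_affineSpan
    have h1 : fv d L 0 ∈ convexHull ℝ (VS d N L : Set (Fin d → ℝ)) :=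
      subset_convexHull ℝ _ (mem_VS.2 ⟨0, hN, rfl⟩)
    have h2 : fv d L k' ∈ convexHull ℝ (VS d N L : Set (Fin d → ℝ)) :=
      subset_convexHull ℝ _ (mem_VS.2 ⟨k', hk', rfl⟩)
    have h3 := (convex_convexHull ℝ (VS d N L : Set (Fin d → ℝ))) h1 h2
      (by norm_num : (0 : ℝ) ≤ 1 / 2) (by norm_num : (0 : ℝ) ≤ 1 / 2) (by norm_num)
    rw [h5, smul_neg, add_neg_cancel] at h3
    exact h3
  rw [← AffineSubspace.direction_eq_top_iff_of_nonempty ⟨0, h0⟩, eq_top_iff, ← span_top hc,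
    Submodule.span_le]
  rintro _ ⟨k, hk, rfl⟩
  have h1 : fv d L k ∈ affineSpan ℝ (VS d N L : Set (Fin d → ℝ)) :=
    subset_affineSpan ℝ _ (mem_VS.2 ⟨k, hk, rfl⟩)
  have h2 := AffineSubspace.vsub_mem_direction h1 h0
  simpa using h2

theorem symmP (hc : Checks d N L certs H B Q NF) : ∀ x ∈ PS d N L, -x ∈ PS d N L := by
  intro x hx
  have h1 : (-(VS d N L : Set (Fin d → ℝ))) = (VS d N L : Set (Fin d → ℝ)) := by
    ext v
    rw [Set.mem_neg]
    constructor
    · intro hv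
      obtain ⟨k, hk, hkv⟩ := mem_VS.1 hv
      obtain ⟨k', hk', _, _, h5⟩ := exists_anti hc hk
      refine mem_VS.2 ⟨k', hk', ?_⟩
      rw [h5, hkv, neg_neg]
    · intro hv
      obtain ⟨k, hk, hkv⟩ := mem_VS.1 hv
      obtain ⟨k', hk', _, _, h5⟩ := exists_anti hc hk
      refine mem_VS.2 ⟨k', hk', ?_⟩
      rw [h5, hkv]
  have h2 : PS d N L = -PS d N L := by
    unfold PS
    rw [← convexHull_neg, h1]
  rw [h2] at hx
  exact hx

theorem edge_pos (hc : Checks d N L certs H B Q NF) {u w : ℕ} (hu : u < N) (hw : w < N)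
    (hh : u / 2 ≠ w / 2) (h : IsEdge (PS d N L) (fv d L u) (fv d L w)) :
    ∃ (l : (Fin d → ℝ) →ₗ[ℝ] ℝ) (M : ℝ), 0 < M ∧ (∀ k < N, l (fv d L k) ≤ M) ∧
      l (fv d L u) = M ∧ l (fv d L w) = M := by
  obtain ⟨_, _, _, hE⟩ := h
  obtain ⟨l, M, h1, h2⟩ := face_form ⟨_, left_mem_segment ℝ _ _⟩ hE
  have hl : fv d L u ∈ {x ∈ PS d N L | l x = M} := h2 ▸ left_mem_segment ℝ _ _
  have hr : fv d L w ∈ {x ∈ PS d N L | l x = M} := h2 ▸ right_mem_segment ℝ _ _
  refine ⟨l, M, pos_of_ne hc l h1 ?_, h1, hl.2, hr.2⟩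
  rw [← h2]
  intro h3
  obtain ⟨k', hk', h4, h5, _⟩ := exists_anti hc hu
  have h6 : fv d L k' ∈ (PS d N L).extremePoints ℝ := by
    rw [extreme hc]
    exact ⟨k', hk', rfl⟩
  have h7 : fv d L k' ∈ segment ℝ (fv d L u) (fv d L w) := by
    rw [h3]
    exact h6.1
  have huP : fv d L u ∈ PS d N L := hl.1
  have hwP : fv d L w ∈ PS d N L := hr.1
  rcases mem_extremePoints_iff_forall_segment.1 h6 |>.2 _ huP _ hwP h7 with h8 | h8
  · exact h4 (fv_injOn hc hu hk' h8)
  · exact hh (h5.trans (by rw [fv_injOn hc hw hk' h8]))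

theorem noCycle (hc : Checks d N L certs H B Q NF) : NoCsFourCycle (PS d N L) := by
  rintro v w hne1 hne2 ⟨h1, h2, _, _⟩
  obtain ⟨u, hu, hv⟩ : v ∈ fv d L '' {k | k < N} := extreme hc ▸ h1.2.1
  obtain ⟨k, hk, hw⟩ : w ∈ fv d L '' {k | k < N} := extreme hc ▸ h1.2.2.1
  subst hv hw
  have hu' : u < N := hu
  have hk' : k < N := hk
  have hh : u / 2 ≠ k / 2 := by
    intro h
    by_cases h3 : u = k
    · exact hne1 (by rw [h3])
    · exact hne2 (fv_anti hc hu' hk' h3 h)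
  obtain ⟨u', hu1, hu2, hu3, hu4⟩ := exists_anti hc hu'
  rw [← hu4] at h2
  obtain ⟨l, M, hM, hl, hl1, hl2⟩ := edge_pos hc hu' hk' hh h1
  obtain ⟨l', M', hM', hl', hl1', hl2'⟩ := edge_pos hc hk' hu1 (fun h => hh (hu3.trans h.symm)) h2
  obtain ⟨e, he, rfl⟩ := (mem_idx hc).1 hu'
  obtain ⟨e', he', rfl⟩ := (mem_idx hc).1 hk'
  have h3 := List.all_eq_true.1 (List.all_eq_true.1 hc.cyc e he) e' he'
  rw [Bool.or_eq_true, Bool.or_eq_true] at h3
  have h4 : ∀ b : ℕ, (∃ c ∈ certs, key c.1 c.2.1 =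
      (min (e.1 / 2) (e'.1 / 2), max (e.1 / 2) (e'.1 / 2), b)) → b < 2 → False := by
    rintro b ⟨c, hm, h5⟩ hb
    by_cases h6 : (e.1 + e'.1) % 2 = b
    · refine not_both hc hm hu' hk' ?_ l hM hl ⟨hl1, hl2⟩
      rw [h5]
      unfold key
      rw [h6]
    · refine not_both hc hm hk' hu1 ?_ l' hM' hl' ⟨hl1', hl2'⟩
      rw [h5]
      unfold key
      rw [← hu3, min_comm, max_comm]
      have : (e'.1 + u') % 2 = b := by omega
      rw [this]
  rcases h3 with h3 | h3 | h3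
  · exact hh (by simpa using h3)
  · obtain ⟨c, hm, h5⟩ := List.any_eq_true.1 h3
    exact h4 0 ⟨c, hm, by simpa using h5⟩ (by norm_num)
  · obtain ⟨c, hm, h5⟩ := List.any_eq_true.1 h3
    exact h4 1 ⟨c, hm, by simpa using h5⟩ (by norm_num)

theorem simplicialP (hc : Checks d N L certs H B Q NF) (F : Set (Fin d → ℝ)) (hF : F.Nonempty)
    (hne : F ≠ PS d N L) (hE : IsExposed ℝ (PS d N L) F) :
    ∃ W : Finset (Fin d → ℝ), AffineIndependent ℝ (fun w : W => (w : Fin d → ℝ)) ∧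
      F = convexHull ℝ (W : Set (Fin d → ℝ)) := by
  classical
  obtain ⟨l, M, h1, h2⟩ := face_form hF hE
  have hM := pos_of_ne hc l h1 (by rw [← h2]; exact hne)
  have h3 := (indep hc l hM h1).id_image
  have h4 : (fv d L '' {k | k < N ∧ l (fv d L k) = M} : Set (Fin d → ℝ)) =
      ((((Finset.range N).filter fun k => l (fv d L k) = M).image (fv d L) :
        Finset (Fin d → ℝ)) : Set (Fin d → ℝ)) := by
    ext v
    simp
  refine ⟨((Finset.range N).filter fun k => l (fv d L k) = M).image (fv d L), ?_, ?_⟩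
  · rw [h4] at h3
    exact LinearIndependent.affineIndependent ℝ h3
  · rw [h2, face_hull l h1, h4]

/-- The polytope of a checked table. -/
theorem main (hc : Checks d N L certs H B Q NF) : N ∈ VertexNumbers d := by
  refine ⟨PS d N L, ⟨⟨VS d N L, rfl⟩, full hc, symmP hc, simplicialP hc⟩, noCycle hc, ?_, ?_⟩
  · rw [extreme hc]
    exact (Set.finite_Iio N).image _
  · rw [extreme hc, Set.InjOn.ncard_image (fv_injOn hc)]
    have : ({k | k < N} : Set ℕ) = ((Finset.range N : Finset ℕ) : Set ℕ) := by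
      ext k
      simp
    rw [this, Set.ncard_coe_finset, Finset.card_range]

end

end Pool.Agent.CSP
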