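import Pool.Agent.CSP.Chk

/-! # Centrally symmetric simplicial polytopes without induced centrally symmetric 4-cycles:
from the integer checks to the polytope -/

set_option autoImplicit false

namespace Pool.Agent.CSP

open Set

/-- A centrally symmetric simplicial `d`-polytope in `ℝ^d`: the convex hull of finitely many points, with
non-empty interior, symmetric about the origin, such that every proper face (a non-empty exposed subset
different from the polytope) is a simplex, that is, the convex hull of affinely independent points. -/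
structure IsCsSimplicialPolytope (d : ℕ) (P : Set (Fin d → ℝ)) : Prop where
  hull : ∃ V : Finset (Fin d → ℝ), P = convexHull ℝ (V : Set (Fin d → ℝ))
  full : (interior P).Nonempty
  symm : ∀ x ∈ P, -x ∈ P
  simplicial : ∀ F : Set (Fin d → ℝ), F.Nonempty → F ≠ P → IsExposed ℝ P F →
    ∃ W : Finset (Fin d → ℝ), AffineIndependent ℝ (fun w : W => (w : Fin d → ℝ)) ∧
      F = convexHull ℝ (W : Set (Fin d → ℝ))

/-- The vertices `u ≠ w` of `P` are joined by an edge: the segment `[u,w]` is a face of `P`. -/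
def IsEdge {d : ℕ} (P : Set (Fin d → ℝ)) (u w : Fin d → ℝ) : Prop :=
  u ≠ w ∧ u ∈ P.extremePoints ℝ ∧ w ∈ P.extremePoints ℝ ∧ IsExposed ℝ P (segment ℝ u w)

/-- `P` has no centrally symmetric 4-cycle `v, w, -v, -w` in its graph. -/
def NoCsFourCycle {d : ℕ} (P : Set (Fin d → ℝ)) : Prop :=
  ∀ v w : Fin d → ℝ, w ≠ v → w ≠ -v →
    ¬ (IsEdge P v w ∧ IsEdge P w (-v) ∧ IsEdge P (-v) (-w) ∧ IsEdge P (-w) v)

/-- The numbers `N` such that some centrally symmetric simplicial `d`-polytope without (induced)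
centrally symmetric 4-cycle has exactly `N` vertices. -/
def VertexNumbers (d : ℕ) : Set ℕ :=
  {N | ∃ P : Set (Fin d → ℝ), IsCsSimplicialPolytope d P ∧ NoCsFourCycle P ∧
    (P.extremePoints ℝ).Finite ∧ (P.extremePoints ℝ).ncard = N}

/-- The minimal number of vertices `m(d)`. -/
noncomputable def minVertices (d : ℕ) : ℕ := sInf (VertexNumbers d)

/-- The face of the convex hull of `V` in which `l` attains its maximum `M` over `V`. -/
theorem face_eq {d : ℕ} (V : Finset (Fin d → ℝ)) (l : (Fin d → ℝ) →ₗ[ℝ] ℝ) (M : ℝ)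
    (h : ∀ v ∈ V, l v ≤ M) :
    {x ∈ convexHull ℝ (V : Set (Fin d → ℝ)) | l x = M} =
      convexHull ℝ {v | v ∈ V ∧ l v = M} := by
  classical
  apply Subset.antisymm
  · rintro x ⟨hx, hM⟩
    obtain ⟨w, hw0, hw1, hwx⟩ := Finset.mem_convexHull'.1 hx
    have h1 : ∑ y ∈ V, w y * (M - l y) = 0 := by
      have : l x = ∑ y ∈ V, w y * l y := by
        rw [← hwx, map_sum]
        exact Finset.sum_congr rfl fun y _ => by rw [map_smul, smul_eq_mul]
      simp only [mul_sub, Finset.sum_sub_distrib]
      rw [← this, ← Finset.sum_mul, hw1, hM]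
      ring
    have h2 : ∀ y ∈ V, w y * (M - l y) = 0 := by
      refine (Finset.sum_eq_zero_iff_of_nonneg fun y hy => ?_).1 h1
      exact mul_nonneg (hw0 y hy) (sub_nonneg.2 (h y hy))
    have h3 : ∀ y ∈ V, l y ≠ M → w y = 0 := by
      intro y hy hne
      rcases mul_eq_zero.1 (h2 y hy) with h | h
      · exact h
      · exact absurd (by linarith) hne
    have h4 : ({v | v ∈ V ∧ l v = M} : Set (Fin d → ℝ)) = ((V.filter fun v => l v = M :
        Finset (Fin d → ℝ)) : Set (Fin d → ℝ)) := by
      ext v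
      simp
    rw [h4]
    refine Finset.mem_convexHull'.2 ⟨w, fun y hy => hw0 y (Finset.mem_filter.1 hy).1, ?_, ?_⟩
    · rw [← hw1, Finset.sum_filter]
      refine Finset.sum_congr rfl fun y hy => ?_
      split_ifs with h5
      · rfl
      · exact (h3 y hy h5).symm
    · rw [← hwx, Finset.sum_filter]
      refine Finset.sum_congr rfl fun y hy => ?_
      split_ifs with h5
      · rfl
      · rw [h3 y hy h5, zero_smul]
  · refine convexHull_min ?_ ?_
    · rintro v ⟨hv, hM⟩
      exact ⟨subset_convexHull ℝ _ hv, hM⟩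
    · refine (convex_convexHull ℝ _).inter ?_
      exact convex_hyperplane (LinearMap.isLinear l) M

/-- The vector of the entry with index `k`. -/
def vecAt : List (ℕ × ℕ × List ℤ) → ℕ → List ℤ
  | [], _ => []
  | e :: es, k => if e.1 = k then e.2.2 else vecAt es k

theorem vecAt_eq : ∀ {L : List (ℕ × ℕ × List ℤ)}, (L.map (·.1)).Nodup → ∀ e ∈ L,
    vecAt L e.1 = e.2.2 := by
  intro L
  induction L with
  | nil => intro _ e he; simp at he
  | cons a L ih =>
    intro hn e he
    rw [List.map_cons, List.nodup_cons] at hn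
    unfold vecAt
    rcases List.mem_cons.1 he with rfl | he
    · rw [if_pos rfl]
    · rw [if_neg, ih hn.2 e he]
      intro h
      exact hn.1 (h ▸ List.mem_map.2 ⟨e, he, rfl⟩)

/-- The key of a pair of signed vertices: the two indices and the relative sign. -/
def key (u w : ℕ) : ℕ × ℕ × ℕ := (min (u / 2) (w / 2), max (u / 2) (w / 2), (u + w) % 2)

/-- Integer combination of entries. -/
def combo (L : List (ℕ × ℕ × List ℤ)) (t : ℕ) : List (ℕ × ℕ) → ℤ
  | [] => 0
  | c :: cs => c.1 * (vecAt L c.2).getD t 0 + combo L t cs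

/-- A certificate `(i, j, q, c)`: `q (x_i + x_j) = ∑ c_k x_k` with `∑ c_k < 2 q`. -/
def certOk (d N : ℕ) (L : List (ℕ × ℕ × List ℤ)) (c : ℕ × ℕ × ℕ × List (ℕ × ℕ)) : Bool :=
  decide (c.1 < N) && decide (c.2.1 < N) && (c.2.2.2.all fun p => decide (p.2 < N)) &&
  decide ((c.2.2.2.map (·.1)).sum < 2 * c.2.2.1) &&
  ((List.range d).all fun t => decide ((c.2.2.1 : ℤ) * ((vecAt L c.1).getD t 0 +
    (vecAt L c.2.1).getD t 0) = combo L t c.2.2.2))

/-- The sum of some entries. -/
def sumAt (L : List (ℕ × ℕ × List ℤ)) (t : ℕ) : List ℕ → ℤ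
  | [] => 0
  | k :: ks => (vecAt L k).getD t 0 + sumAt L t ks

/-- The bit mask of a list. -/
def maskOf : List ℕ → ℕ
  | [] => 0
  | k :: ks => maskOf ks ||| 2 ^ k

/-- A certificate `(T, q, c)`: `q ∑_{t in T} x_t = ∑ c_k x_k` with `∑ c_k < q |T|`. -/
def nfOk (d N : ℕ) (L : List (ℕ × ℕ × List ℤ)) (c : List ℕ × ℕ × List (ℕ × ℕ)) : Bool :=
  (c.1.all fun k => decide (k < N)) && (c.2.2.all fun p => decide (p.2 < N)) &&
  decide ((c.2.2.map (·.1)).sum < c.2.1 * c.1.length) &&
  ((List.range d).all fun t => decide ((c.2.1 : ℤ) * sumAt L t c.1 = combo L t c.2.2))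

/-- All checks. -/
structure Checks (d N : ℕ) (L : List (ℕ × ℕ × List ℤ))
    (certs : List (ℕ × ℕ × ℕ × List (ℕ × ℕ))) (H : List (ℕ × List ℤ))
    (B : List (ℕ × List (ℕ × ℕ))) (Q : List (List ℕ × ℕ × List (ℕ × ℕ))) (NF : List ℕ) :
    Prop where
  nf : (Q.all fun c => nfOk d N L c) = true
  nfm : NF = Q.map fun c => maskOf c.1
  idx : L.map (·.1) = (List.range N).reverse
  len : (L.all fun e => decide (e.2.2.length = d)) = true
  anti : (L.all fun e => L.all fun e' => decide (e.1 = e'.1) || !decide (e.1 / 2 = e'.1 / 2) ||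
    decide (e'.2.2 = e.2.2.map (fun z => -z))) = true
  sym : (L.all fun e => L.any fun e' => !decide (e.1 = e'.1) && decide (e.1 / 2 = e'.1 / 2)) = true
  cert : (certs.all fun c => certOk d N L c) = true
  pairs : (L.all fun e => L.all fun e' => decide (e.1 / 2 = e'.1 / 2) || e.2.1.testBit e'.1 ||
    (certs.any fun c => decide (key e.1 e'.1 = key c.1 c.2.1))) = true
  cyc : (L.all fun e => L.all fun e' => decide (e.1 / 2 = e'.1 / 2) ||
    ((certs.any fun c => decide (key c.1 c.2.1 =
      (min (e.1 / 2) (e'.1 / 2), max (e.1 / 2) (e'.1 / 2), 0))) ||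
     (certs.any fun c => decide (key c.1 c.2.1 =
      (min (e.1 / 2) (e'.1 / 2), max (e.1 / 2) (e'.1 / 2), 1))))) = true
  clique : chk NF L (2 ^ N - 1) 0 ((List.range d).map fun t => (List.range d).map fun s =>
    if s = t then 1 else 0) = true
  vert : (L.all fun e => H.any fun h => decide (h.1 = e.1) && decide (h.2.length = d) &&
    (L.all fun e' => decide (e'.1 = e.1) || decide (dot h.2 e'.2.2 < dot h.2 e.2.2))) = true
  basis : ((List.range d).all fun t => B.any fun b => decide (0 < b.1) &&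
    (b.2.all fun p => decide (p.2 < N)) &&
    ((List.range d).all fun s => decide ((if s = t then (b.1 : ℤ) else 0) = combo L s b.2))) = true
  pos : 2 < N

end Pool.Agent.CSP
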